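import Pool.Agent.Helper324_MB.Core

/-!
# A Banach space with an extended M-basis which contains `ℓ^∞` (MP_810de6_an, Q1)
-/

set_option autoImplicit false

namespace Pool.Agent.Results.MP_810de6_an.LinftyInMBasis

open scoped ENNReal

/-- `E` has an extended M-basis: there are a family of vectors `x i` and a family of continuous
linear functionals `f i`, with the same index set, such that `f j (x i)` is `1` for `i = j` and `0`
otherwise, the closed linear span of the vectors is `E`, and the functionals are total. -/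
def HasExtendedMBasis (𝕜 : Type) [RCLike 𝕜] (E : Type) [NormedAddCommGroup E] [NormedSpace 𝕜 E] :
    Prop :=
  ∃ (I : Type) (x : I → E) (f : I → (E →L[𝕜] 𝕜)), (∀ i, f i (x i) = 1) ∧
    (∀ i j, i ≠ j → f j (x i) = 0) ∧
    (Submodule.span 𝕜 (Set.range x)).topologicalClosure = ⊤ ∧
    ∀ v : E, (∀ i, f i v = 0) → v = 0

/-- There is a Banach space (over the reals or over the complex numbers) which has an extended
M-basis and a closed subspace isomorphic to `ℓ^∞`. -/
theorem result (𝕜 : Type) [RCLike 𝕜] :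
    ∃ (E : Type) (_ : NormedAddCommGroup E) (_ : NormedSpace 𝕜 E), CompleteSpace E ∧
      HasExtendedMBasis 𝕜 E ∧
      ∃ G : Submodule 𝕜 E, IsClosed (G : Set E) ∧ Nonempty (lp (fun _ : ℕ => 𝕜) ∞ ≃L[𝕜] G) := by
  refine ⟨Helper324_MB.EE 𝕜, inferInstance, inferInstance, inferInstance,
    ⟨ℕ ⊕ Helper324_MB.Gam 𝕜, Helper324_MB.vec 𝕜, Helper324_MB.fct 𝕜, Helper324_MB.one_biorth 𝕜,
      Helper324_MB.zero_biorth 𝕜, Helper324_MB.span_top 𝕜, Helper324_MB.total 𝕜⟩,
    (ContinuousLinearMap.inl 𝕜 (Helper324_MB.Linf 𝕜) (Helper324_MB.Lone 𝕜)).range, ?_, ⟨?_⟩⟩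
  · exact Helper324_MB.isClosed_range_inl 𝕜
  · refine ContinuousLinearMap.equivRange (f := ContinuousLinearMap.inl 𝕜 (Helper324_MB.Linf 𝕜)
      (Helper324_MB.Lone 𝕜)) ?_ (Helper324_MB.isClosed_range_inl 𝕜)
    intro u v h
    exact congrArg Prod.fst h

end Pool.Agent.Results.MP_810de6_an.LinftyInMBasis
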